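import Pool.Agent.Helper11X.KR.Root

/-! # Tight trees with a prescribed ordered root and random vertex sets

Let `T` be a tight `(d+1)`-tree with `t` edges and let `ρ` be an ordering of `d` distinct vertices
of its first edge. For a `(d+1)`-graph `H` on `n` vertices we bound the weighted sum, over all
orderings `u` of members of the shadow of `H`, of the probability that there is no copy of `T` in
`H` which sends the root `ρ` to `u` and all other vertices of `T` into a random set of vertices. -/

set_option autoImplicit false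

namespace Pool.Agent.Results.MP_b4409b_co.RootedCopies

open Finset

/-- `e 0, …, e (t - 1)` is a proper ordering of the edges of a tight `r`-tree: all `e i` have `r`
elements, and every `e i` with `i > 0` has a vertex which is in no earlier edge, the other
vertices of `e i` being contained in one earlier edge. -/
def IsTightTree (r t : ℕ) (e : ℕ → Finset ℕ) : Prop :=
  (∀ i, i < t → (e i).card = r) ∧
    ∀ i, 0 < i → i < t → ∃ v ∈ e i, (∀ j, j < i → v ∉ e j) ∧ ∃ j, j < i ∧ e i \ {v} ⊆ e j

/-- There is a copy in `H` of the hypergraph with edges `e 0, …, e (t - 1)`, given by the map `f`,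
which sends `ρ j` to `u j` for every `j` and every other vertex of these edges into `S`. -/
def RootedCopyIn {n d : ℕ} (H : Finset (Finset (Fin n))) (t : ℕ) (e : ℕ → Finset ℕ)
    (ρ : Fin d → ℕ) (u : Fin d → Fin n) (S : Finset (Fin n)) : Prop :=
  ∃ f : ℕ → Fin n, Set.InjOn f {x : ℕ | ∃ i, i < t ∧ x ∈ e i} ∧
    (∀ i, i < t → (e i).image f ∈ H) ∧ (∀ j, f (ρ j) = u j) ∧
    ∀ x, (∃ i, i < t ∧ x ∈ e i) → (∀ j, x ≠ ρ j) → f x ∈ S

open Classical in
/-- the `d`-tuples of distinct vertices which together with some vertex form an edge of `H`; for a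
`(d+1)`-uniform `H` these are the orderings of the members of the shadow of `H` -/
noncomputable def tuples {n : ℕ} (H : Finset (Finset (Fin n))) (d : ℕ) :
    Finset (Fin d → Fin n) :=
  univ.filter fun u => Function.Injective u ∧ ∃ w, insert w (univ.image u) ∈ H

/-- the number of vertices which together with the entries of `u` form an edge of `H` -/
def degree {n d : ℕ} (H : Finset (Finset (Fin n))) (u : Fin d → Fin n) : ℕ :=
  (univ.filter fun w => insert w (univ.image u) ∈ H).card

open Classical in
/-- the probability that there is no copy in `H` which sends `ρ` to `u` and all other vertices into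
`S`, where `S` is a random set of vertices: its size is uniform on `0, 1, …, n`, and given its size
all sets of this size are equally likely -/
noncomputable def failure {n d : ℕ} (H : Finset (Finset (Fin n))) (t : ℕ) (e : ℕ → Finset ℕ)
    (ρ : Fin d → ℕ) (u : Fin d → Fin n) : ℚ :=
  ∑ S : Finset (Fin n), if RootedCopyIn H t e ρ u S then (0 : ℚ) else
    1 / (((n : ℚ) + 1) * (n.choose S.card : ℚ))

theorem failure_eq {n d : ℕ} (H : Finset (Finset (Fin n))) (t : ℕ) (e : ℕ → Finset ℕ)
    (ρ : Fin d → ℕ) (u : Fin d → Fin n) :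
    ((n : ℚ) + 1) * failure H t e ρ u =
      ES903.E univ (ES903.Fail (Pool.Agent.Helper11X.KR.RootedIn H t e ρ u)) := by
  unfold failure ES903.E ES903.Fail
  rw [Finset.mul_sum, Finset.powerset_univ]
  refine Finset.sum_congr rfl fun S _ => ?_
  have hn : ((n : ℚ) + 1) ≠ 0 := by positivity
  have hR : RootedCopyIn H t e ρ u S ↔ Pool.Agent.Helper11X.KR.RootedIn H t e ρ u S := Iff.rfl
  by_cases h : RootedCopyIn H t e ρ u S
  · rw [if_pos h, if_pos (hR.1 h)]
    simp
  · rw [if_neg h, if_neg (fun h' => h (hR.2 h')), Finset.card_univ, Fintype.card_fin]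
    have hc : ((n.choose S.card : ℕ) : ℚ) ≠ 0 := by
      have h1 : S.card ≤ n := by
        simpa using Finset.card_le_univ S
      exact_mod_cast (Nat.choose_pos h1).ne'
    field_simp

theorem failure_nonneg {n d : ℕ} (H : Finset (Finset (Fin n))) (t : ℕ) (e : ℕ → Finset ℕ)
    (ρ : Fin d → ℕ) (u : Fin d → Fin n) : 0 ≤ failure H t e ρ u := by
  unfold failure
  refine Finset.sum_nonneg fun S _ => ?_
  split_ifs
  · exact le_rfl
  · positivity

theorem failure_one {n d : ℕ} (H : Finset (Finset (Fin n))) (t : ℕ) (e : ℕ → Finset ℕ)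
    (ρ : Fin d → ℕ) (u : Fin d → Fin n) (h : ¬ RootedCopyIn H t e ρ u univ) :
    failure H t e ρ u = 1 := by
  have h1 := failure_eq H t e ρ u
  have h2 : ES903.Fail (Pool.Agent.Helper11X.KR.RootedIn H t e ρ u) = fun _ => (1 : ℚ) := by
    funext S
    unfold ES903.Fail
    rw [if_neg]
    rintro ⟨f, f1, f2, f3, _⟩
    exact h ⟨f, f1, f2, f3, fun _ _ _ => Finset.mem_univ _⟩
  rw [h2] at h1
  have h3 : ES903.E (univ : Finset (Fin n)) (fun _ => (1 : ℚ)) = (n : ℚ) + 1 := by
    rw [ES903.E_one, Finset.card_univ, Fintype.card_fin]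
  rw [h3] at h1
  have hn : ((n : ℚ) + 1) ≠ 0 := by positivity
  exact mul_left_cancel₀ hn (by rw [h1, mul_one])

open Classical in
/-- **Copies of tight trees with a prescribed root in random sets of vertices.** Let `T` be a tight
`(d+1)`-tree with `t` edges, `ρ` an ordering of `d` vertices of its first edge and `H` a
`(d+1)`-graph on `n` vertices. The sum of `(degree u + 1) * failure u` over the orderings `u` of the
members of the shadow of `H` is at most `t` times the number of these orderings. In particular the
sum of `degree u + 1` over those `u` to which `ρ` is sent by no copy of `T` in `H` is at most `t`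
times the number of all orderings. -/
theorem result : ∀ (d t : ℕ), 1 ≤ t → ∀ e : ℕ → Finset ℕ, IsTightTree (d + 1) t e →
    ∀ ρ : Fin d → ℕ, Function.Injective ρ → (∀ j, ρ j ∈ e 0) →
    ∀ (n : ℕ) (H : Finset (Finset (Fin n))), (∀ h ∈ H, h.card = d + 1) →
      ∑ u ∈ tuples H d, ((degree H u : ℚ) + 1) * failure H t e ρ u ≤
          (t : ℚ) * ((tuples H d).card : ℚ) ∧
        ∑ u ∈ (tuples H d).filter (fun u => ¬ RootedCopyIn H t e ρ u univ), (degree H u + 1) ≤
          t * (tuples H d).card := by
  intro d t ht e he ρ hρ hρe n H hH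
  have hmain : ∑ u ∈ tuples H d, ((degree H u : ℚ) + 1) * failure H t e ρ u ≤
      (t : ℚ) * ((tuples H d).card : ℚ) := by
    rcases Nat.eq_zero_or_pos n with rfl | hn
    · have h0 : tuples H d = ∅ := by
        unfold tuples
        rw [Finset.filter_eq_empty_iff]
        rintro u _ ⟨_, w, _⟩
        exact w.elim0
      rw [h0]
      simp
    · have : Nonempty (Fin n) := ⟨⟨0, hn⟩⟩
      have hT : tuples H d = Pool.Agent.Y825.KS.Sh H d := by
        ext u
        rw [Pool.Agent.Y825.KS.mem_Sh]
        unfold tuples H223R3.Kalai.Nb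
        rw [Finset.mem_filter]
        constructor
        · rintro ⟨_, h1, w, hw⟩
          exact ⟨h1, w, Finset.mem_filter.2 ⟨Finset.mem_univ _, hw⟩⟩
        · rintro ⟨h1, w, hw⟩
          exact ⟨Finset.mem_univ _, h1, w, (Finset.mem_filter.1 hw).2⟩
      have hc := Pool.Agent.Helper11X.KR.rooted_cost e t ht (he.1 0 ht) (by
        intro i hi hit
        obtain ⟨v, hv, hnew, j, hj, hsub⟩ := he.2 i hi hit
        refine ⟨j, hj, e i \ {v}, hsub, ?_, v, ?_, ?_⟩
        · rw [Finset.card_sdiff_of_subset (Finset.singleton_subset_iff.2 hv), he.1 i hit,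
            Finset.card_singleton]
          omega
        · rw [Finset.mem_biUnion]
          rintro ⟨k, hk, hvk⟩
          exact hnew k (Finset.mem_range.1 hk) hvk
        · ext x
          by_cases hx : x = v
          · subst hx; simp [hv]
          · simp [hx]) ρ hρ hρe H hH
      rw [← hT, Fintype.card_fin] at hc
      have hn1 : (0 : ℚ) < (n : ℚ) + 1 := by positivity
      have h1 : ∑ u ∈ tuples H d, (((H223R3.Kalai.Nb H u).card : ℚ) + 1) *
          ES903.E univ (ES903.Fail (Pool.Agent.Helper11X.KR.RootedIn H t e ρ u)) =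
          ((n : ℚ) + 1) * ∑ u ∈ tuples H d, ((degree H u : ℚ) + 1) * failure H t e ρ u := by
        rw [Finset.mul_sum]
        refine Finset.sum_congr rfl fun u _ => ?_
        rw [← failure_eq]
        have h2 : (H223R3.Kalai.Nb H u).card = degree H u := rfl
        rw [h2]
        ring
      rw [h1] at hc
      have h3 : (t : ℚ) * (((tuples H d).card : ℚ) * ((n : ℚ) + 1)) =
          ((n : ℚ) + 1) * ((t : ℚ) * ((tuples H d).card : ℚ)) := by ring
      rw [h3] at hc
      exact le_of_mul_le_mul_left hc hn1
  refine ⟨hmain, ?_⟩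
  have h1 : ((∑ u ∈ (tuples H d).filter (fun u => ¬ RootedCopyIn H t e ρ u univ),
      (degree H u + 1) : ℕ) : ℚ) ≤ ((t * (tuples H d).card : ℕ) : ℚ) := by
    rw [Nat.cast_mul]
    refine le_trans ?_ hmain
    rw [Nat.cast_sum]
    refine le_trans (Finset.sum_le_sum (g := fun u => ((degree H u : ℚ) + 1) *
      failure H t e ρ u) fun u hu => ?_) (Finset.sum_le_sum_of_subset_of_nonneg
      (Finset.filter_subset _ _) fun u _ _ => mul_nonneg (by positivity)
        (failure_nonneg H t e ρ u))
    rw [failure_one H t e ρ u (Finset.mem_filter.1 hu).2, mul_one]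
    push_cast
    exact le_rfl
  exact_mod_cast h1

end Pool.Agent.Results.MP_b4409b_co.RootedCopies
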